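import Pool.Agent.Lib.MP_6153ad_an.Space

/-!
# The space has covering dimension at most one
-/

set_option autoImplicit false

open Set Topology Filter
open scoped Real

namespace Pool.Agent.Lib.MP_6153ad_an

theorem norm_exp_sub_exp (a b : ℝ) :
    ‖Complex.exp ((a : ℂ) * Complex.I) - Complex.exp ((b : ℂ) * Complex.I)‖ ≤ |a - b| := by
  have h1 : Complex.exp ((a : ℂ) * Complex.I) - Complex.exp ((b : ℂ) * Complex.I) =
      Complex.exp ((b : ℂ) * Complex.I) * (Complex.exp (Complex.I * ((a - b : ℝ) : ℂ)) - 1) := by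
    rw [mul_sub, ← Complex.exp_add, mul_one]
    congr 2
    push_cast; ring
  rw [h1, norm_mul, Complex.norm_exp_ofReal_mul_I, one_mul]
  have := Real.norm_exp_I_mul_ofReal_sub_one_le (x := a - b)
  rwa [Real.norm_eq_abs] at this

theorem exp_arg {z : ℂ} (hz : ‖z‖ = 1) : Complex.exp ((Complex.arg z : ℂ) * Complex.I) = z := by
  have := Complex.norm_mul_exp_arg_mul_I z
  rwa [hz, Complex.ofReal_one, one_mul] at this

/-- A small family: members are open, pairwise disjoint and have small intersection with the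
circle. -/
structure Small {ι : Type} (A : ι → Set ℂ) (δ : ℝ) : Prop where
  isOpen : ∀ j, IsOpen (A j)
  disj : ∀ i j, i ≠ j → Disjoint (A i) (A j)
  small : ∀ j, ∀ z ∈ A j, ∀ z' ∈ A j, ‖z‖ = 1 → ‖z'‖ = 1 → dist z z' < δ

/-- The circle is covered by two small families. -/
theorem circle_cover {δ : ℝ} (hδ : 0 < δ) : ∃ (ι κ : Type) (_ : Finite ι) (_ : Finite κ)
    (A : ι → Set ℂ) (B : κ → Set ℂ), Small A δ ∧ Small B δ ∧
    ∀ z : ℂ, ‖z‖ = 1 → (∃ i, z ∈ A i) ∨ ∃ k, z ∈ B k := by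
  obtain ⟨N, hN⟩ := exists_nat_gt (2 * π / δ)
  have hN0 : (0 : ℝ) < N := lt_trans (by positivity) hN
  have hNδ : 2 * π / N < δ := by
    rw [div_lt_iff₀ hN0]
    rw [div_lt_iff₀ hδ] at hN
    linarith
  have hN1 : 1 ≤ N := by exact_mod_cast (by exact_mod_cast hN0 : 0 < N)
  -- cut points
  set c : ℕ → ℂ := fun j => Complex.exp (((-π + 2 * π * j / N : ℝ) : ℂ) * Complex.I) with hc
  set F : Set ℂ := c '' (Finset.range (N + 1) : Set ℕ) with hF
  have hFfin : F.Finite := (Finset.finite_toSet _).image _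
  obtain ⟨U, hU, hUd⟩ := hFfin.t2_separation
  refine ⟨Fin N, F, inferInstance, hFfin,
    fun j => {z | z ∈ Complex.slitPlane ∧
      Complex.arg z ∈ Ioo (-π + 2 * π * (j : ℕ) / N) (-π + 2 * π * ((j : ℕ) + 1) / N)},
    fun x => U x ∩ Metric.ball (x : ℂ) (δ / 2), ⟨?_, ?_, ?_⟩, ⟨?_, ?_, ?_⟩, ?_⟩
  · intro j
    have h1 : ContinuousOn Complex.arg Complex.slitPlane := fun x hx =>
      (Complex.continuousAt_arg hx).continuousWithinAt
    exact h1.isOpen_inter_preimage Complex.isOpen_slitPlane isOpen_Ioo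
  · intro i j hij
    rw [Set.disjoint_left]
    rintro z ⟨-, h1, h2⟩ ⟨-, h3, h4⟩
    have hpi := Real.pi_pos
    have e1 : 2 * π * (i : ℕ) / N < 2 * π * ((j : ℕ) + 1) / N := by linarith
    have e2 : 2 * π * (j : ℕ) / N < 2 * π * ((i : ℕ) + 1) / N := by linarith
    rw [div_lt_div_iff_of_pos_right hN0] at e1 e2
    have e3 : ((i : ℕ) : ℝ) < (j : ℕ) + 1 := lt_of_mul_lt_mul_left e1 (by positivity)
    have e4 : ((j : ℕ) : ℝ) < (i : ℕ) + 1 := lt_of_mul_lt_mul_left e2 (by positivity)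
    have e5 : (i : ℕ) < (j : ℕ) + 1 := by exact_mod_cast e3
    have e6 : (j : ℕ) < (i : ℕ) + 1 := by exact_mod_cast e4
    exact hij (Fin.ext (by omega))
  · rintro j z ⟨-, h1, h2⟩ z' ⟨-, h3, h4⟩ hz hz'
    rw [dist_eq_norm, ← exp_arg hz, ← exp_arg hz']
    refine (norm_exp_sub_exp _ _).trans_lt (lt_trans ?_ hNδ)
    have e1 : 2 * π * ((j : ℕ) + 1) / N = 2 * π * (j : ℕ) / N + 2 * π / N := by ring
    rw [abs_lt]
    constructor <;> linarith
  · intro x
    exact (hU x).2.inter Metric.isOpen_ball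
  · intro x y hxy
    have hne : (x : ℂ) ≠ y := fun h => hxy (Subtype.ext h)
    exact (hUd x.2 y.2 hne).mono inter_subset_left inter_subset_left
  · rintro x z ⟨-, hz⟩ z' ⟨-, hz'⟩ - -
    rw [Metric.mem_ball] at hz hz'
    rw [dist_comm] at hz'
    linarith [dist_triangle z (x : ℂ) z']
  · intro z hz
    have hpi := Real.pi_pos
    have ha1 := Complex.neg_pi_lt_arg z
    have ha2 := Complex.arg_le_pi z
    set x : ℝ := (Complex.arg z + π) * N / (2 * π) with hx
    have hx0 : 0 < x := by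
      rw [hx]
      apply div_pos (mul_pos (by linarith) hN0) (by positivity)
    have hxN : x ≤ N := by
      rw [hx, div_le_iff₀ (by positivity)]
      nlinarith
    have hinv : Complex.arg z = -π + 2 * π * x / N := by
      rw [hx]; field_simp; ring
    by_cases hint : ∃ m : ℕ, x = m
    · right
      obtain ⟨m, hm⟩ := hint
      have hmN : m ≤ N := by rw [hm] at hxN; exact_mod_cast hxN
      have hzF : z ∈ F := by
        refine ⟨m, ?_, ?_⟩
        · rw [Finset.coe_range]; exact Nat.lt_succ_of_le hmN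
        · simp only [hc]
          rw [← hm, ← hinv, exp_arg hz]
      exact ⟨⟨z, hzF⟩, (hU z).1, Metric.mem_ball_self (by positivity)⟩
    · left
      push Not at hint
      have hfl := Nat.floor_le hx0.le
      have hfl2 := Nat.lt_floor_add_one x
      have hne := hint ⌊x⌋₊
      have hlt : ((⌊x⌋₊ : ℕ) : ℝ) < x := lt_of_le_of_ne hfl (Ne.symm hne)
      have hN' : ⌊x⌋₊ < N := by
        have : ((⌊x⌋₊ : ℕ) : ℝ) < N := hlt.trans_le hxN
        exact_mod_cast this
      refine ⟨⟨⌊x⌋₊, hN'⟩, ?_, ?_, ?_⟩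
      · rw [Complex.mem_slitPlane_iff_arg]
        constructor
        · intro hpi'
          apply hint N
          rw [hx, hpi']; field_simp; ring
        · rw [← norm_pos_iff, hz]; exact one_pos
      · simp only
        rw [hinv]
        have : 2 * π * ((⌊x⌋₊ : ℕ) : ℝ) / N < 2 * π * x / N := by
          apply div_lt_div_of_pos_right _ hN0
          exact mul_lt_mul_of_pos_left hlt (by positivity)
        linarith
      · simp only
        rw [hinv]
        have : 2 * π * x / N < 2 * π * (((⌊x⌋₊ : ℕ) : ℝ) + 1) / N := by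
          apply div_lt_div_of_pos_right _ hN0
          exact mul_lt_mul_of_pos_left hfl2 (by positivity)
        linarith

/-- Lift of a family of subsets of the circle to the space. -/
def liftFam {ι : Type} (A : ι → Set ℂ) (K : ℕ) : ι ⊕ (Fin K × ι) → Set XS
  | Sum.inl j => {P | ‖P.1.1‖ < 1 / ((K : ℝ) + 1 / 2) ∧ P.1.2 ∈ A j}
  | Sum.inr (k, j) => {P | 1 / (((k : ℕ) : ℝ) + 3 / 2) < ‖P.1.1‖ ∧
      ‖P.1.1‖ < 1 / (((k : ℕ) : ℝ) + 1 / 2) ∧ P.1.1 / ((1 / (((k : ℕ) : ℝ) + 1) : ℝ) : ℂ) ∈ A j}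

theorem norm_cases (P : XS) : P.1.1 = 0 ∨ ∃ k : ℕ, ‖P.1.1‖ = 1 / ((k : ℝ) + 1) := by
  rcases P.2.2.1 with h | ⟨k, hk⟩
  · left; exact norm_eq_zero.1 h
  · right; exact ⟨k, hk.symm⟩

/-- Between the bounds there is only one radius. -/
theorem norm_eq_of_between {P : XS} {k : ℕ} (h1 : 1 / ((k : ℝ) + 3 / 2) < ‖P.1.1‖)
    (h2 : ‖P.1.1‖ < 1 / ((k : ℝ) + 1 / 2)) : ‖P.1.1‖ = 1 / ((k : ℝ) + 1) := by
  have hk : (0 : ℝ) ≤ k := Nat.cast_nonneg k
  rcases norm_cases P with h | ⟨m, hm⟩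
  · rw [h, norm_zero] at h1
    exfalso
    have : (0 : ℝ) < 1 / ((k : ℝ) + 3 / 2) := by positivity
    linarith
  · rw [hm] at h1 h2 ⊢
    have hm0 : (0 : ℝ) ≤ m := Nat.cast_nonneg m
    rw [div_lt_div_iff₀ (by positivity) (by positivity)] at h1 h2
    have e1 : m < k + 1 := by
      have : (m : ℝ) < k + 1 := by linarith
      exact_mod_cast this
    have e2 : k < m + 1 := by
      have : (k : ℝ) < m + 1 := by linarith
      exact_mod_cast this
    have : m = k := by omega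
    rw [this]

theorem far_props {P : XS} {k : ℕ} (h : ‖P.1.1‖ = 1 / ((k : ℝ) + 1)) :
    ‖P.1.1 / ((1 / ((k : ℝ) + 1) : ℝ) : ℂ)‖ = 1 ∧
      P.1.2 = (P.1.1 / ((1 / ((k : ℝ) + 1) : ℝ) : ℂ)) ^ 2 := by
  have hpos : (0 : ℝ) < 1 / ((k : ℝ) + 1) := by positivity
  have hne : ((1 / ((k : ℝ) + 1) : ℝ) : ℂ) ≠ 0 := by exact_mod_cast hpos.ne'
  refine ⟨?_, ?_⟩
  · rw [norm_div, h, Complex.norm_real, Real.norm_of_nonneg hpos.le, div_self hpos.ne']
  · have h3 := P.2.2.2
    rw [h] at h3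
    rw [div_pow, h3]
    field_simp

theorem liftFam_open {ι : Type} {A : ι → Set ℂ} {δ : ℝ} (hA : Small A δ) (K : ℕ)
    (i : ι ⊕ (Fin K × ι)) : IsOpen (liftFam A K i) := by
  have hu : Continuous fun P : XS => P.1.1 := continuous_fst.comp continuous_subtype_val
  have hv : Continuous fun P : XS => P.1.2 := continuous_snd.comp continuous_subtype_val
  rcases i with j | ⟨k, j⟩
  · exact (isOpen_lt hu.norm continuous_const).inter ((hA.isOpen j).preimage hv)
  · exact (isOpen_lt continuous_const hu.norm).inter ((isOpen_lt hu.norm continuous_const).inter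
      ((hA.isOpen j).preimage (hu.div_const _)))

theorem liftFam_disj {ι : Type} {A : ι → Set ℂ} {δ : ℝ} (hA : Small A δ) (K : ℕ)
    (i i' : ι ⊕ (Fin K × ι)) (hne : i ≠ i') : Disjoint (liftFam A K i) (liftFam A K i') := by
  have hnf : ∀ (j : ι) (k : Fin K) (j' : ι),
      Disjoint (liftFam A K (Sum.inl j)) (liftFam A K (Sum.inr (k, j'))) := by
    intro j k j'
    rw [Set.disjoint_left]
    rintro P ⟨h1, -⟩ ⟨h2, h3, -⟩
    have h4 := norm_eq_of_between h2 h3
    rw [h4] at h1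
    have hk : (0 : ℝ) ≤ (k : ℕ) := Nat.cast_nonneg _
    have hK : ((k : ℕ) : ℝ) + 1 ≤ K := by exact_mod_cast k.2
    rw [div_lt_div_iff₀ (by positivity) (by positivity)] at h1
    linarith
  rcases i with j | ⟨k, j⟩ <;> rcases i' with j' | ⟨k', j'⟩
  · have : j ≠ j' := fun h => hne (by rw [h])
    exact ((hA.disj j j' this).preimage (fun P : XS => P.1.2)).mono
      (fun P hP => hP.2) (fun P hP => hP.2)
  · exact hnf j k' j'
  · exact (hnf j' k j).symm
  · rw [Set.disjoint_left]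
    rintro P ⟨h1, h2, h3⟩ ⟨h1', h2', h3'⟩
    have e1 := norm_eq_of_between h1 h2
    have e2 := norm_eq_of_between h1' h2'
    rw [e1, div_eq_div_iff (by positivity) (by positivity)] at e2
    have e3 : (k' : ℕ) = (k : ℕ) := by
      have : ((k' : ℕ) : ℝ) = (k : ℕ) := by linarith
      exact_mod_cast this
    have e4 : k' = k := Fin.ext e3
    subst e4
    have : j ≠ j' := fun h => hne (by rw [h])
    exact Set.disjoint_left.1 (hA.disj j j' this) h3 h3'

theorem liftFam_small {ι : Type} {A : ι → Set ℂ} {δ : ℝ} (hA : Small A (δ / 2)) {K : ℕ}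
    (hδ : 0 < δ) (hK : 1 / ((K : ℝ) + 1 / 2) < δ / 2) (i : ι ⊕ (Fin K × ι)) (P Q : XS)
    (hP : P ∈ liftFam A K i) (hQ : Q ∈ liftFam A K i) : dist P Q < δ := by
  have hdist : dist P Q = max (dist P.1.1 Q.1.1) (dist P.1.2 Q.1.2) := rfl
  rw [hdist, max_lt_iff]
  rcases i with j | ⟨k, j⟩
  · obtain ⟨h1, h2⟩ := hP
    obtain ⟨h3, h4⟩ := hQ
    constructor
    · rw [dist_eq_norm]
      have := norm_sub_le P.1.1 Q.1.1
      linarith
    · have := hA.small j _ h2 _ h4 P.2.1 Q.2.1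
      linarith
  · obtain ⟨h1, h2, h3⟩ := hP
    obtain ⟨h1', h2', h3'⟩ := hQ
    have e1 := norm_eq_of_between h1 h2
    have e2 := norm_eq_of_between h1' h2'
    obtain ⟨g1, g2⟩ := far_props e1
    obtain ⟨g1', g2'⟩ := far_props e2
    have hs := hA.small j _ h3 _ h3' g1 g1'
    have hpos : (0 : ℝ) < 1 / (((k : ℕ) : ℝ) + 1) := by positivity
    have hle : (1 : ℝ) / (((k : ℕ) : ℝ) + 1) ≤ 1 := by
      rw [div_le_one (by positivity)]
      have : (0 : ℝ) ≤ (k : ℕ) := Nat.cast_nonneg _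
      linarith
    have hne : ((1 / (((k : ℕ) : ℝ) + 1) : ℝ) : ℂ) ≠ 0 := by exact_mod_cast hpos.ne'
    set w := P.1.1 / ((1 / (((k : ℕ) : ℝ) + 1) : ℝ) : ℂ) with hw
    set w' := Q.1.1 / ((1 / (((k : ℕ) : ℝ) + 1) : ℝ) : ℂ) with hw'
    have hPw : P.1.1 = ((1 / (((k : ℕ) : ℝ) + 1) : ℝ) : ℂ) * w := by rw [hw]; field_simp
    have hQw : Q.1.1 = ((1 / (((k : ℕ) : ℝ) + 1) : ℝ) : ℂ) * w' := by rw [hw']; field_simp
    rw [dist_eq_norm] at hs
    constructor
    · rw [dist_eq_norm, hPw, hQw, ← mul_sub, norm_mul, Complex.norm_real,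
        Real.norm_of_nonneg hpos.le]
      have : 1 / (((k : ℕ) : ℝ) + 1) * ‖w - w'‖ ≤ 1 * ‖w - w'‖ :=
        mul_le_mul_of_nonneg_right hle (norm_nonneg _)
      linarith
    · rw [dist_eq_norm, g2, g2']
      have h5 : w ^ 2 - w' ^ 2 = (w - w') * (w + w') := by ring
      rw [h5, norm_mul]
      have h6 : ‖w + w'‖ ≤ 2 := (norm_add_le _ _).trans (by rw [g1, g1']; norm_num)
      have h7 : ‖w - w'‖ * ‖w + w'‖ ≤ ‖w - w'‖ * 2 :=
        mul_le_mul_of_nonneg_left h6 (norm_nonneg _)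
      linarith

/-- Points are covered by the lift of a cover. -/
theorem liftFam_cover {ι κ : Type} {A : ι → Set ℂ} {B : κ → Set ℂ} (K : ℕ)
    (h : ∀ z : ℂ, ‖z‖ = 1 → (∃ i, z ∈ A i) ∨ ∃ k, z ∈ B k) (P : XS) :
    (∃ i, P ∈ liftFam A K i) ∨ ∃ k, P ∈ liftFam B K k := by
  have key : ‖P.1.1‖ < 1 / ((K : ℝ) + 1 / 2) ∨ ∃ k : Fin K, ‖P.1.1‖ = 1 / (((k : ℕ) : ℝ) + 1) := by
    rcases norm_cases P with h0 | ⟨k, hk⟩
    · left; rw [h0, norm_zero]; positivity
    · rcases lt_or_ge k K with h1 | h1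
      · right; exact ⟨⟨k, h1⟩, hk⟩
      · left
        rw [hk, div_lt_div_iff₀ (by positivity) (by positivity)]
        have : (K : ℝ) ≤ k := by exact_mod_cast h1
        linarith
  rcases key with hn | ⟨k, hk⟩
  · rcases h P.1.2 P.2.1 with ⟨i, hi⟩ | ⟨i, hi⟩
    · exact Or.inl ⟨Sum.inl i, hn, hi⟩
    · exact Or.inr ⟨Sum.inl i, hn, hi⟩
  · have b1 : 1 / (((k : ℕ) : ℝ) + 3 / 2) < ‖P.1.1‖ := by
      rw [hk, div_lt_div_iff₀ (by positivity) (by positivity)]; linarith
    have b2 : ‖P.1.1‖ < 1 / (((k : ℕ) : ℝ) + 1 / 2) := by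
      rw [hk, div_lt_div_iff₀ (by positivity) (by positivity)]; linarith
    rcases h _ (far_props hk).1 with ⟨i, hi⟩ | ⟨i, hi⟩
    · exact Or.inl ⟨Sum.inr (k, i), b1, b2, hi⟩
    · exact Or.inr ⟨Sum.inr (k, i), b1, b2, hi⟩

theorem ncard_le_one_of_disj {ι Y : Type} (G : ι → Set Y)
    (hd : ∀ i j, i ≠ j → Disjoint (G i) (G j)) (x : Y) : {i | x ∈ G i}.Subsingleton := by
  intro i hi j hj
  by_contra hne
  exact Set.disjoint_left.1 (hd i j hne) hi hj

/-- Every finite open cover of the space has a finite open refinement of order at most two. -/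
theorem cov_dim (k : ℕ) (α : Fin k → Set XS) (hα : ∀ i, IsOpen (α i)) (hcov : ⋃ i, α i = univ) :
    ∃ (m : ℕ) (γ : Fin m → Set XS), (∀ j, IsOpen (γ j)) ∧ ⋃ j, γ j = univ ∧
      (∀ j, ∃ i, γ j ⊆ α i) ∧ ∀ x : XS, {j : Fin m | x ∈ γ j}.ncard ≤ 2 := by
  obtain ⟨δ, hδ, hleb⟩ := lebesgue_number_lemma_of_metric (isCompact_univ (X := XS)) hα
    (by rw [hcov])
  obtain ⟨ι, κ, hι, hκ, A, B, hA, hB, hAB⟩ := circle_cover (half_pos hδ)
  obtain ⟨K, hK⟩ := exists_nat_gt (2 / δ)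
  have hK0 : (0 : ℝ) < K := lt_trans (by positivity) hK
  have hKδ : 1 / ((K : ℝ) + 1 / 2) < δ / 2 := by
    rw [div_lt_iff₀ (by positivity)]
    rw [div_lt_iff₀ hδ] at hK
    nlinarith
  set J : Type := (ι ⊕ (Fin K × ι)) ⊕ (κ ⊕ (Fin K × κ)) with hJ
  have : Finite J := inferInstance
  obtain ⟨m, ⟨e⟩⟩ := Finite.exists_equiv_fin J
  set Γ : J → Set XS := Sum.elim (liftFam A K) (liftFam B K) with hΓ
  refine ⟨m, fun j => Γ (e.symm j), ?_, ?_, ?_, ?_⟩
  · intro j
    simp only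
    rcases e.symm j with i | i
    · exact liftFam_open hA K i
    · exact liftFam_open hB K i
  · rw [eq_univ_iff_forall]
    intro P
    rw [mem_iUnion]
    rcases liftFam_cover K hAB P with ⟨i, hi⟩ | ⟨i, hi⟩
    · exact ⟨e (Sum.inl i), by rw [e.symm_apply_apply]; exact hi⟩
    · exact ⟨e (Sum.inr i), by rw [e.symm_apply_apply]; exact hi⟩
  · intro j
    have hsmall : ∀ P ∈ Γ (e.symm j), ∀ Q ∈ Γ (e.symm j), dist P Q < δ := by
      rcases e.symm j with i | i
      · exact fun P hP Q hQ => liftFam_small hA hδ hKδ i P Q hP hQ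
      · exact fun P hP Q hQ => liftFam_small hB hδ hKδ i P Q hP hQ
    rcases (Γ (e.symm j)).eq_empty_or_nonempty with he | ⟨P, hP⟩
    · have : pt0 ∈ ⋃ i, α i := by rw [hcov]; trivial
      obtain ⟨i, -⟩ := mem_iUnion.1 this
      exact ⟨i, by simp only [he]; exact empty_subset _⟩
    · obtain ⟨i, hi⟩ := hleb P (mem_univ P)
      exact ⟨i, fun Q hQ => hi (by rw [Metric.mem_ball]; exact hsmall Q hQ P hP)⟩
  · intro x
    have h1 : {j : Fin m | x ∈ Γ (e.symm j)} ⊆
        e '' (Sum.inl '' {i | x ∈ liftFam A K i} ∪ Sum.inr '' {i | x ∈ liftFam B K i}) := by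
      intro j hj
      refine ⟨e.symm j, ?_, e.apply_symm_apply j⟩
      change x ∈ Γ (e.symm j) at hj
      rcases he : e.symm j with i | i
      · left; rw [he] at hj; exact ⟨i, hj, rfl⟩
      · right; rw [he] at hj; exact ⟨i, hj, rfl⟩
    have hsA := ncard_le_one_of_disj (liftFam A K) (liftFam_disj hA K) x
    have hsB := ncard_le_one_of_disj (liftFam B K) (liftFam_disj hB K) x
    refine (Set.ncard_le_ncard h1 (Set.toFinite _)).trans ?_
    refine (Set.ncard_image_le (Set.toFinite _)).trans ?_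
    refine (Set.ncard_union_le _ _).trans ?_
    have c1 : (Sum.inl '' {i | x ∈ liftFam A K i} : Set J).ncard ≤ 1 :=
      (Set.ncard_image_le (Set.toFinite _)).trans
        (Set.ncard_le_one_iff_subsingleton.2 hsA)
    have c2 : (Sum.inr '' {i | x ∈ liftFam B K i} : Set J).ncard ≤ 1 :=
      (Set.ncard_image_le (Set.toFinite _)).trans
        (Set.ncard_le_one_iff_subsingleton.2 hsB)
    omega

end Pool.Agent.Lib.MP_6153ad_an
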