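import Mathlib

/-!
# Periodic functions with spectrum in an interval
-/

set_option autoImplicit false

open Set Topology Filter MeasureTheory
open scoped FourierTransform Real ContDiff

namespace Pool.Agent.Lib.MP_6153ad_an

theorem integrable_fourier (φ : SchwartzMap ℝ ℂ) : Integrable (𝓕 (φ : ℝ → ℂ)) := by
  rw [← SchwartzMap.fourier_coe]; exact (𝓕 φ).integrable

theorem integrable_mul_fourier {T : ℝ} (φ : SchwartzMap ℝ ℂ) (F : C(AddCircle T, ℂ))
    [Fact (0 < T)] :
    Integrable (fun t : ℝ => F (t : AddCircle T) * 𝓕 (φ : ℝ → ℂ) t) := by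
  apply (integrable_fourier φ).bdd_mul (c := ‖F‖)
  · apply Continuous.aestronglyMeasurable
    exact F.continuous.comp (AddCircle.continuous_mk' T)
  · filter_upwards with t
    exact F.norm_coe_le_norm _

/-- The functional `F ↦ ∫ F(t) 𝓕φ(t) dt`. -/
noncomputable def L1 (T : ℝ) [Fact (0 < T)] (φ : SchwartzMap ℝ ℂ) : C(AddCircle T, ℂ) →L[ℂ] ℂ :=
  LinearMap.mkContinuous
    { toFun := fun F => ∫ t : ℝ, F (t : AddCircle T) * 𝓕 (φ : ℝ → ℂ) t
      map_add' := by
        intro F G
        rw [← integral_add (integrable_mul_fourier φ F) (integrable_mul_fourier φ G)]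
        congr 1
        ext t
        rw [ContinuousMap.add_apply]; ring
      map_smul' := by
        intro c F
        simp only [ContinuousMap.smul_apply, smul_eq_mul, RingHom.id_apply, mul_assoc]
        rw [integral_const_mul] }
    (∫ t : ℝ, ‖𝓕 (φ : ℝ → ℂ) t‖) (by
      intro F
      change ‖∫ t : ℝ, F (t : AddCircle T) * 𝓕 (φ : ℝ → ℂ) t‖ ≤ _
      refine (norm_integral_le_integral_norm _).trans ?_
      rw [← integral_mul_const]
      apply integral_mono (integrable_mul_fourier φ F).norm
        ((integrable_fourier φ).norm.mul_const _)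
      intro t
      simp only [norm_mul]
      rw [mul_comm]
      exact mul_le_mul_of_nonneg_left (F.norm_coe_le_norm _) (norm_nonneg _))

theorem L1_apply (T : ℝ) [Fact (0 < T)] (φ : SchwartzMap ℝ ℂ) (F : C(AddCircle T, ℂ)) :
    L1 T φ F = ∫ t : ℝ, F (t : AddCircle T) * 𝓕 (φ : ℝ → ℂ) t := rfl

theorem L1_fourier (T : ℝ) [Fact (0 < T)] (φ : SchwartzMap ℝ ℂ) (m : ℤ) :
    L1 T φ (fourier m) = φ (m / T) := by
  have hinv := φ.continuous.fourierInv_fourier_eq φ.integrable (integrable_fourier φ)
  have h1 := congrFun hinv (m / T)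
  rw [Real.fourierInv_eq'] at h1
  rw [L1_apply, ← h1]
  congr 1
  ext t
  rw [fourier_coe_apply, smul_eq_mul]
  congr 2
  simp only [RCLike.inner_apply, conj_trivial]
  push_cast
  ring

theorem integrable_coeff (T : ℝ) [Fact (0 < T)] (j : ℤ) (F : C(AddCircle T, ℂ)) :
    Integrable (fun t : AddCircle T => fourier (-j) t • F t) AddCircle.haarAddCircle := by
  have h : Continuous (fun t : AddCircle T => fourier (-j) t • F t) := by fun_prop
  exact h.integrable_of_hasCompactSupport (HasCompactSupport.of_compactSpace _)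

theorem fourier_map_add {T : ℝ} (n : ℤ) (x y : AddCircle T) :
    (fourier n (x + y) : ℂ) = fourier n x * fourier n y := by
  rw [fourier_apply, fourier_apply, fourier_apply, zsmul_add, AddCircle.toCircle_add,
    Circle.coe_mul]

/-- The functional `F ↦ fourierCoeff F j`. -/
noncomputable def L2 (T : ℝ) [Fact (0 < T)] (j : ℤ) : C(AddCircle T, ℂ) →L[ℂ] ℂ :=
  LinearMap.mkContinuous
    { toFun := fun F => fourierCoeff F j
      map_add' := by
        intro F G
        simp only [fourierCoeff, ContinuousMap.add_apply, smul_add]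
        exact integral_add (integrable_coeff T j F) (integrable_coeff T j G)
      map_smul' := by
        intro c F
        simp only [fourierCoeff, ContinuousMap.smul_apply, smul_eq_mul, RingHom.id_apply]
        rw [← integral_const_mul]
        congr 1
        ext t
        ring }
    1 (by
      intro F
      change ‖∫ t : AddCircle T, fourier (-j) t • F t ∂AddCircle.haarAddCircle‖ ≤ _
      refine (norm_integral_le_of_norm_le_const (C := ‖F‖) ?_).trans ?_
      · filter_upwards with t
        rw [norm_smul]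
        have h1 : ‖(fourier (-j) t : ℂ)‖ = 1 := by
          rw [fourier_apply]; exact Circle.norm_coe _
        rw [h1, one_mul]
        exact F.norm_coe_le_norm _
      · simp)

theorem L2_apply (T : ℝ) [Fact (0 < T)] (j : ℤ) (F : C(AddCircle T, ℂ)) :
    L2 T j F = fourierCoeff F j := rfl

/-- If `φ` isolates the frequency `j / T` then `∫ F 𝓕φ` is the `j`-th Fourier coefficient. -/
theorem coeff_eq {T : ℝ} [Fact (0 < T)] (φ : SchwartzMap ℝ ℂ) (j : ℤ)
    (h1 : ∀ m : ℤ, m ≠ j → φ (m / T) = 0) (h2 : φ (j / T) = 1) (F : C(AddCircle T, ℂ)) :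
    fourierCoeff F j = ∫ t : ℝ, F (t : AddCircle T) * 𝓕 (φ : ℝ → ℂ) t := by
  have hdense : Dense (Submodule.span ℂ (range (@fourier T)) : Set C(AddCircle T, ℂ)) := by
    rw [Submodule.dense_iff_topologicalClosure_eq_top]
    exact span_fourier_closure_eq_top
  have : L2 T j = L1 T φ := by
    apply ContinuousLinearMap.ext_on hdense
    rintro _ ⟨m, rfl⟩
    rw [L1_fourier, L2_apply, fourierCoeff_fourier]
    by_cases hm : m = j
    · subst hm
      rw [h2, Pi.single_eq_same]
    · rw [h1 m hm, Pi.single_eq_of_ne (Ne.symm hm)]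
  rw [← L2_apply, this, L1_apply]

/-- A Schwartz function with compact support in a small ball. -/
theorem exists_bump (y : ℝ) {ρ : ℝ} (hρ : 0 < ρ) : ∃ φ : SchwartzMap ℝ ℂ,
    HasCompactSupport (⇑φ) ∧ tsupport (⇑φ) ⊆ Metric.closedBall y ρ ∧ φ y = 1 := by
  let b : ContDiffBump y := ⟨ρ / 2, ρ, by positivity, by linarith⟩
  have hc : HasCompactSupport (fun x : ℝ => ((b x : ℝ) : ℂ)) :=
    b.hasCompactSupport.comp_left (g := fun x : ℝ => (x : ℂ)) Complex.ofReal_zero
  have hd : ContDiff ℝ ∞ (fun x : ℝ => ((b x : ℝ) : ℂ)) :=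
    Complex.ofRealCLM.contDiff.comp b.contDiff
  refine ⟨hc.toSchwartzMap hd, hc, ?_, ?_⟩
  · apply closure_minimal _ Metric.isClosed_closedBall
    intro x hx
    have hx' : (b x : ℝ) ≠ 0 := by
      intro h0
      apply hx
      change ((b x : ℝ) : ℂ) = 0
      rw [h0, Complex.ofReal_zero]
    have : x ∈ Function.support b := hx'
    rw [b.support_eq] at this
    exact Metric.ball_subset_closedBall this
  · change ((b y : ℝ) : ℂ) = 1
    have : b y = 1 := b.one_of_mem_closedBall (Metric.mem_closedBall_self (by positivity))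
    rw [this, Complex.ofReal_one]

/-- A continuous `T`-periodic function with spectrum in `[-2,2]` and `0 < T < 1` satisfies
`f(t) + f(t + T/2) = const`. -/
theorem half_period {T : ℝ} (hT : 0 < T) (hT1 : T < 1) (f : C(ℝ, ℝ)) (hf : ∀ t, f (t + T) = f t)
    (hs : ∀ φ : SchwartzMap ℝ ℂ, HasCompactSupport (⇑φ) →
      Disjoint (tsupport (⇑φ)) (Icc (-2) 2) →
      ∫ t, ((f t : ℝ) : ℂ) * 𝓕 (⇑φ : ℝ → ℂ) t = 0) :
    ∃ c : ℝ, ∀ t, f t + f (t + T / 2) = c := by
  have : Fact (0 < T) := ⟨hT⟩
  -- the function on the circle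
  have hper : Function.Periodic (fun t => ((f t : ℝ) : ℂ)) T := by
    intro t; simp only; rw [hf]
  let F : C(AddCircle T, ℂ) := ⟨hper.lift, by
    apply continuous_coinduced_dom.2
    exact Complex.continuous_ofReal.comp f.continuous⟩
  have hF : ∀ t : ℝ, F (t : AddCircle T) = ((f t : ℝ) : ℂ) := fun t => rfl
  have hcoeff : ∀ j : ℤ, 2 ≤ |j| → fourierCoeff F j = 0 := by
    intro j hj
    have hjT : 2 < |(j : ℝ) / T| := by
      rw [abs_div, abs_of_pos hT, lt_div_iff₀ hT]
      have : (2 : ℝ) ≤ |(j : ℝ)| := by exact_mod_cast hj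
      nlinarith
    set ρ : ℝ := min (1 / 2) ((|(j : ℝ) / T| - 2) / 2) with hρ
    have hρ0 : 0 < ρ := lt_min (by norm_num) (by linarith)
    obtain ⟨φ, hφc, hφs, hφ1⟩ := exists_bump ((j : ℝ) / T) hρ0
    rw [coeff_eq φ j _ hφ1 F]
    · simp_rw [hF]
      apply hs φ hφc
      rw [Set.disjoint_left]
      intro x hx hx2
      have h1 := hφs hx
      rw [Metric.mem_closedBall, Real.dist_eq] at h1
      have h2 : |x| ≤ 2 := abs_le.2 hx2
      have h3 : |(j : ℝ) / T| ≤ |x| + |x - (j : ℝ) / T| := by
        have := abs_sub_abs_le_abs_sub ((j : ℝ) / T) x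
        rw [abs_sub_comm] at this
        linarith
      have h4 : ρ ≤ (|(j : ℝ) / T| - 2) / 2 := min_le_right _ _
      linarith
    · intro m hm
      by_contra hne
      have h1 : (m : ℝ) / T ∈ tsupport (⇑φ) := subset_tsupport _ hne
      have h2 := hφs h1
      rw [Metric.mem_closedBall, Real.dist_eq, ← sub_div, abs_div, abs_of_pos hT] at h2
      have h3 : (1 : ℝ) ≤ |(m : ℝ) - j| := by
        have : (1 : ℤ) ≤ |m - j| := Int.one_le_abs (sub_ne_zero.2 hm)
        exact_mod_cast this
      have h4 : ρ ≤ 1 / 2 := min_le_left _ _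
      have h5 : 1 ≤ |(m : ℝ) - j| / T := by
        rw [le_div_iff₀ hT]; nlinarith
      linarith
  -- the symmetrized function
  set hh : AddCircle T := ((T / 2 : ℝ) : AddCircle T) with hhh
  let F' : C(AddCircle T, ℂ) := F.comp ⟨fun x => x + hh, by fun_prop⟩
  have hF' : ∀ x, F' x = F (x + hh) := fun x => rfl
  have hshift : ∀ j : ℤ, fourierCoeff F' j = fourier j hh * fourierCoeff F j := by
    intro j
    simp only [fourierCoeff, smul_eq_mul]
    rw [← integral_const_mul]
    rw [← integral_add_right_eq_self (μ := AddCircle.haarAddCircle)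
      (fun x : AddCircle T => fourier j hh * (fourier (-j) x * F x)) hh]
    congr 1
    ext x
    rw [fourier_map_add (-j) x hh, hF']
    have h1 : (fourier j hh : ℂ) * fourier (-j) hh = 1 := by
      rw [← fourier_add, add_neg_cancel, fourier_zero]
    linear_combination (-(fourier (-j) x * F (x + hh))) * h1
  have hfourier_one : ∀ j : ℤ, |j| = 1 → (fourier j hh : ℂ) = -1 := by
    intro j hj
    rw [hhh, fourier_coe_apply]
    have hT0 : (T : ℂ) ≠ 0 := by exact_mod_cast hT.ne'
    rcases (abs_eq (by norm_num : (0 : ℤ) ≤ 1)).1 hj with rfl | rfl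
    · have : 2 * (π : ℂ) * Complex.I * ((1 : ℤ) : ℂ) * ((T / 2 : ℝ) : ℂ) / T = π * Complex.I := by
        push_cast; field_simp
      rw [this, Complex.exp_pi_mul_I]
    · have : 2 * (π : ℂ) * Complex.I * ((-1 : ℤ) : ℂ) * ((T / 2 : ℝ) : ℂ) / T =
          -(π * Complex.I) := by
        push_cast; field_simp
      rw [this, Complex.exp_neg, Complex.exp_pi_mul_I]
      norm_num
  have hGcoeff : ∀ j : ℤ, j ≠ 0 → fourierCoeff (F + F') j = 0 := by
    intro j hj
    have h0 : fourierCoeff (F + F') j = fourierCoeff F j + fourierCoeff F' j := by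
      have := (L2 T j).map_add F F'
      exact this
    rw [h0, hshift]
    rcases lt_or_ge |j| 2 with h | h
    · have h1 : |j| = 1 := by
        have := abs_pos.2 hj
        omega
      rw [hfourier_one j h1]; ring
    · rw [hcoeff j h]; ring
  have hsum : Summable (fourierCoeff (F + F')) := by
    apply summable_of_ne_finset_zero (s := {0})
    intro j hj
    exact hGcoeff j (by simpa using hj)
  have hhas := hasSum_fourier_series_of_summable hsum
  have hconst : F + F' = fourierCoeff (F + F') 0 • fourier 0 := by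
    apply hhas.unique
    apply hasSum_single 0
    intro j hj
    rw [hGcoeff j hj, zero_smul]
  refine ⟨(fourierCoeff (F + F') 0).re, fun t => ?_⟩
  have h1 := congrArg (fun H : C(AddCircle T, ℂ) => H (t : AddCircle T)) hconst
  simp only [ContinuousMap.add_apply, ContinuousMap.smul_apply, fourier_zero, smul_eq_mul,
    mul_one] at h1
  rw [hF', hhh, ← AddCircle.coe_add, hF, hF] at h1
  rw [← h1, ← Complex.ofReal_add, Complex.ofReal_re]

end Pool.Agent.Lib.MP_6153ad_an
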