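import Pool.Agent.Lib.MP_6153ad_an.Dim
import Pool.Agent.Lib.MP_6153ad_an.Four

/-!
# Own definitions: flows, covering dimension, mean dimension, band-limited functions
-/

set_option autoImplicit false

open Set Topology Filter MeasureTheory
open scoped FourierTransform Real

namespace Pool.Agent.Lib.MP_6153ad_an.Own

/-- Covering dimension at most `n` (`n ≥ -1`; `-1` for the empty space): every finite open cover
has a finite open refinement such that every point lies in at most `n + 1` members. -/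
def CovDimLE (Y : Type) [TopologicalSpace Y] (n : ℤ) : Prop :=
  ∀ (k : ℕ) (α : Fin k → Set Y), (∀ i, IsOpen (α i)) → ⋃ i, α i = univ →
    ∃ (m : ℕ) (γ : Fin m → Set Y), (∀ j, IsOpen (γ j)) ∧ ⋃ j, γ j = univ ∧
      (∀ j, ∃ i, γ j ⊆ α i) ∧ ∀ y : Y, (({j : Fin m | y ∈ γ j}.ncard : ℕ) : ℤ) ≤ n + 1

/-- The set `P_r` of the points fixed by the time `r` map. -/
def periodicSet (X : Type) [AddAction ℝ X] (r : ℝ) : Set X := {x | r +ᵥ x = x}

/-- The metric `d_T (x, y) = sup_{0 ≤ t ≤ T} d (t x, t y)`. -/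
noncomputable def dyn (X : Type) [MetricSpace X] [AddAction ℝ X] (T : ℝ) (x y : X) : ℝ :=
  ⨆ t : Icc (0 : ℝ) T, dist ((t : ℝ) +ᵥ x) ((t : ℝ) +ᵥ y)

/-- The finite polyhedron with vertices among the `N` unit vectors and with the closed simplices
`σ ∈ K`. -/
def polyhedron (N : ℕ) (K : Finset (Finset (Fin N))) : Set (Fin N → ℝ) :=
  {w | w ∈ stdSimplex ℝ (Fin N) ∧ ∃ σ ∈ K, ∀ i ∉ σ, w i = 0}

/-- `Widim_ε (X, d_T) ≤ n`: there is a continuous map to a finite polyhedron of dimension at most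
`n` whose (compact) fibres have `d_T`-diameter less than `ε`. -/
def WidimLE (X : Type) [MetricSpace X] [AddAction ℝ X] (ε T : ℝ) (n : ℕ) : Prop :=
  ∃ (N : ℕ) (K : Finset (Finset (Fin N))), (∀ σ ∈ K, σ.card ≤ n + 1) ∧
    ∃ f : X → (Fin N → ℝ), Continuous f ∧ (∀ x, f x ∈ polyhedron N K) ∧
      ∀ x y, f x = f y → dyn X T x y < ε

/-- `Widim_ε (X, d_T)`. -/
noncomputable def widim (X : Type) [MetricSpace X] [AddAction ℝ X] (ε T : ℝ) : ℕ :=
  sInf {n | WidimLE X ε T n}

/-- The mean dimension of the flow is `δ`: the iterated limit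
`lim_{ε → 0} lim_{T → ∞} Widim_ε (X, d_T) / T` exists and is `δ`. -/
def HasMeanDim (X : Type) [MetricSpace X] [AddAction ℝ X] (δ : ℝ) : Prop :=
  ∃ w : ℝ → ℝ, (∀ ε > 0, Tendsto (fun T : ℝ => (widim X ε T : ℝ) / T) atTop (𝓝 (w ε))) ∧
    Tendsto w (𝓝[>] 0) (𝓝 δ)

/-- The set `B_1 (V[-a, a])`: bounded by `1`, continuous, with the support of the Fourier
transform (as a tempered distribution) in `[-a, a]`. -/
def bandLimited (a : ℝ) : Set (ℝ → ℝ) :=
  {f | Continuous f ∧ (∀ t, |f t| ≤ 1) ∧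
    ∀ φ : SchwartzMap ℝ ℂ, HasCompactSupport (φ : ℝ → ℂ) →
      Disjoint (tsupport (φ : ℝ → ℂ)) (Icc (-a) a) →
      ∫ t, ((f t : ℝ) : ℂ) * 𝓕 (φ : ℝ → ℂ) t = 0}

/-- The metric `d (f, g) = ∑_{n ≥ 1} 2^{-n} sup_{[-n, n]} |f - g|`. -/
noncomputable def bdist (f g : ℝ → ℝ) : ℝ :=
  ∑' n : ℕ, (1 / 2 : ℝ) ^ (n + 1) * ⨆ t : Icc (-((n : ℝ) + 1)) ((n : ℝ) + 1), |f t - g t|

/-- `Φ` is a continuous equivariant map of the flow `X` into `B_1 (V[-a, a])` (with the shift
`(τ_r f) t = f (t + r)`). -/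
def IsMorphism (X : Type) [MetricSpace X] [AddAction ℝ X] (a : ℝ) (Φ : X → ℝ → ℝ) : Prop :=
  (∀ x, Φ x ∈ bandLimited a) ∧
  (∀ x, ∀ ε > 0, ∃ δ > 0, ∀ y, dist y x < δ → bdist (Φ y) (Φ x) < ε) ∧
  ∀ (r : ℝ) (x : X) (t : ℝ), Φ (r +ᵥ x) t = Φ x (t + r)

/-! ### The space with the rescaled flow -/

/-- The space `XS` with the time multiplied by `s`. -/
def XA (_s : ℝ) : Type := XS

variable (s : ℝ)

noncomputable instance : MetricSpace (XA s) := inferInstanceAs (MetricSpace XS)
noncomputable instance : CompactSpace (XA s) := inferInstanceAs (CompactSpace XS)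

noncomputable instance : AddAction ℝ (XA s) where
  vadd t P := (((s * t : ℝ) +ᵥ (show XS from P) : XS))
  zero_vadd P := by
    change ((s * 0 : ℝ) +ᵥ (show XS from P) : XS) = P
    rw [mul_zero, zero_vadd]
  add_vadd t t' P := by
    change ((s * (t + t') : ℝ) +ᵥ (show XS from P) : XS) =
      ((s * t : ℝ) +ᵥ ((s * t' : ℝ) +ᵥ (show XS from P) : XS) : XS)
    rw [mul_add, add_vadd]

theorem vadd_XA (t : ℝ) (P : XA s) : t +ᵥ P = ((s * t : ℝ) +ᵥ (show XS from P) : XS) := rfl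

instance : ContinuousVAdd ℝ (XA s) where
  continuous_vadd := by
    have h1 : Continuous fun q : ℝ × XS => ((s * q.1 : ℝ) +ᵥ q.2 : XS) := by fun_prop
    exact h1

theorem covDim_XA : CovDimLE (XA s) 1 := by
  intro k α hα hcov
  obtain ⟨m, γ, h1, h2, h3, h4⟩ := cov_dim k α hα hcov
  refine ⟨m, γ, h1, h2, h3, fun x => ?_⟩
  have h5 : (({j : Fin m | (show XS from x) ∈ γ j}.ncard : ℕ) : ℤ) ≤ 1 + 1 := by
    exact_mod_cast h4 x
  exact h5

/-- The coordinates used for the map to a simplex. -/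
noncomputable def toSimplex (P : XS) : Fin 5 → ℝ :=
  ![(1 + P.1.1.re) / 10, (1 + P.1.1.im) / 10, (1 + P.1.2.re) / 10, (1 + P.1.2.im) / 10,
    1 - (4 + P.1.1.re + P.1.1.im + P.1.2.re + P.1.2.im) / 10]

theorem continuous_toSimplex : Continuous toSimplex := by
  have hu : Continuous fun P : XS => P.1.1 := continuous_fst.comp continuous_subtype_val
  have hv : Continuous fun P : XS => P.1.2 := continuous_snd.comp continuous_subtype_val
  have hur := Complex.continuous_re.comp hu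
  have hui := Complex.continuous_im.comp hu
  have hvr := Complex.continuous_re.comp hv
  have hvi := Complex.continuous_im.comp hv
  apply continuous_pi
  intro i
  fin_cases i
  · exact (continuous_const.add hur).div_const _
  · exact (continuous_const.add hui).div_const _
  · exact (continuous_const.add hvr).div_const _
  · exact (continuous_const.add hvi).div_const _
  · exact continuous_const.sub
      (((((continuous_const.add hur).add hui).add hvr).add hvi).div_const _)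

theorem injective_toSimplex {P Q : XS} (h : toSimplex P = toSimplex Q) : P = Q := by
  have h0 : (1 + P.1.1.re) / 10 = (1 + Q.1.1.re) / 10 := congrFun h 0
  have h1 : (1 + P.1.1.im) / 10 = (1 + Q.1.1.im) / 10 := congrFun h 1
  have h2 : (1 + P.1.2.re) / 10 = (1 + Q.1.2.re) / 10 := congrFun h 2
  have h3 : (1 + P.1.2.im) / 10 = (1 + Q.1.2.im) / 10 := congrFun h 3
  apply Subtype.ext
  apply Prod.ext
  · exact Complex.ext (by linarith) (by linarith)
  · exact Complex.ext (by linarith) (by linarith)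

theorem toSimplex_mem (P : XS) : toSimplex P ∈ polyhedron 5 {Finset.univ} := by
  have hu : ‖P.1.1‖ ≤ 1 := Sset_le_one P.2.2.1
  have hv : ‖P.1.2‖ ≤ 1 := P.2.1.le
  have a1 := abs_le.1 ((Complex.abs_re_le_norm P.1.1).trans hu)
  have a2 := abs_le.1 ((Complex.abs_im_le_norm P.1.1).trans hu)
  have a3 := abs_le.1 ((Complex.abs_re_le_norm P.1.2).trans hv)
  have a4 := abs_le.1 ((Complex.abs_im_le_norm P.1.2).trans hv)
  refine ⟨⟨?_, ?_⟩, Finset.univ, Finset.mem_singleton_self _, fun i hi =>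
    absurd (Finset.mem_univ i) hi⟩
  · intro i
    fin_cases i
    · change 0 ≤ (1 + P.1.1.re) / 10; linarith [a1.1]
    · change 0 ≤ (1 + P.1.1.im) / 10; linarith [a2.1]
    · change 0 ≤ (1 + P.1.2.re) / 10; linarith [a3.1]
    · change 0 ≤ (1 + P.1.2.im) / 10; linarith [a4.1]
    · change 0 ≤ 1 - (4 + P.1.1.re + P.1.1.im + P.1.2.re + P.1.2.im) / 10
      linarith [a1.2, a2.2, a3.2, a4.2]
  · rw [Fin.sum_univ_five]
    change (1 + P.1.1.re) / 10 + (1 + P.1.1.im) / 10 + (1 + P.1.2.re) / 10 +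
      (1 + P.1.2.im) / 10 + (1 - (4 + P.1.1.re + P.1.1.im + P.1.2.re + P.1.2.im) / 10) = 1
    ring

theorem widimLE_XA {ε T : ℝ} (hε : 0 < ε) (_hT : 0 ≤ T) : WidimLE (XA s) ε T 4 := by
  refine ⟨5, {Finset.univ}, ?_, toSimplex, continuous_toSimplex, toSimplex_mem, ?_⟩
  · intro σ hσ
    rw [Finset.mem_singleton.1 hσ]
    simp
  · intro x y hxy
    have hxy' : x = y := injective_toSimplex hxy
    subst hxy'
    have : dyn (XA s) T x x = 0 := by
      unfold dyn
      simp
    rw [this]; exact hε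

theorem meanDim_XA : HasMeanDim (XA s) 0 := by
  refine ⟨fun _ => 0, fun ε hε => ?_, tendsto_const_nhds⟩
  have hb : ∀ᶠ T : ℝ in atTop, (widim (XA s) ε T : ℝ) / T ≤ 4 / T := by
    filter_upwards [eventually_gt_atTop 0] with T hT
    have h1 : widim (XA s) ε T ≤ 4 := Nat.sInf_le (widimLE_XA s hε hT.le)
    have h2 : (widim (XA s) ε T : ℝ) ≤ 4 := by exact_mod_cast h1
    exact div_le_div_of_nonneg_right h2 hT.le
  have h0 : ∀ᶠ T : ℝ in atTop, 0 ≤ (widim (XA s) ε T : ℝ) / T := by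
    filter_upwards [eventually_gt_atTop 0] with T hT
    positivity
  have hlim : Tendsto (fun T : ℝ => 4 / T) atTop (𝓝 0) :=
    tendsto_const_nhds.div_atTop tendsto_id
  exact tendsto_of_tendsto_of_tendsto_of_le_of_le' tendsto_const_nhds hlim h0 hb

/-- Nonempty `P_r` forces `s r ≥ 1 / 2`. -/
theorem period_XA (hs : 0 < s) {r : ℝ} (hr : 0 < r) {P : XA s} (h : P ∈ periodicSet (XA s) r) :
    1 / 2 ≤ s * r :=
  period_ge (mul_pos hs hr) h

/-- The covering dimension of `P_r` is at most one. -/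
theorem covDim_periodic {r : ℝ} (hne : (periodicSet (XA s) r).Nonempty) :
    CovDimLE (periodicSet (XA s) r) 1 := by
  intro k α hα hcov
  have hcont : Continuous fun x : XA s => r +ᵥ x := continuous_const_vadd r
  have hclosed : IsClosed (periodicSet (XA s) r) := isClosed_eq hcont continuous_id
  choose U hU hUα using fun i => isOpen_induced_iff.1 (hα i)
  obtain ⟨x₀, hx₀⟩ := hne
  set β : Fin (k + 1) → Set (XA s) := Fin.lastCases ((periodicSet (XA s) r)ᶜ) U with hβ
  have hβl : β (Fin.last k) = (periodicSet (XA s) r)ᶜ := by simp [hβ]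
  have hβc : ∀ i : Fin k, β (Fin.castSucc i) = U i := by intro i; simp [hβ]
  have hβo : ∀ i, IsOpen (β i) := by
    intro i
    refine Fin.lastCases ?_ (fun i => ?_) i
    · rw [hβl]; exact hclosed.isOpen_compl
    · rw [hβc]; exact hU i
  have hmem : ∀ x (hx : x ∈ periodicSet (XA s) r), ∃ i, x ∈ U i := by
    intro x hx
    have h1 : (⟨x, hx⟩ : periodicSet (XA s) r) ∈ ⋃ i, α i := by rw [hcov]; trivial
    obtain ⟨i, hi⟩ := mem_iUnion.1 h1
    rw [← hUα i] at hi
    exact ⟨i, hi⟩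
  have hβu : ⋃ i, β i = univ := by
    rw [eq_univ_iff_forall]
    intro x
    rw [mem_iUnion]
    by_cases hx : x ∈ periodicSet (XA s) r
    · obtain ⟨i, hi⟩ := hmem x hx
      exact ⟨Fin.castSucc i, by rw [hβc]; exact hi⟩
    · exact ⟨Fin.last k, by rw [hβl]; exact hx⟩
  obtain ⟨m, γ, h1, h2, h3, h4⟩ := cov_dim (k + 1) β hβo hβu
  obtain ⟨i₀, -⟩ := hmem x₀ hx₀
  refine ⟨m, fun j => Subtype.val ⁻¹' γ j, fun j => (h1 j).preimage continuous_subtype_val, ?_,
    ?_, ?_⟩
  · rw [eq_univ_iff_forall]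
    intro x
    have hx : (show XS from x.1) ∈ ⋃ j, γ j := by rw [h2]; trivial
    obtain ⟨j, hj⟩ := mem_iUnion.1 hx
    exact mem_iUnion.2 ⟨j, hj⟩
  · intro j
    obtain ⟨i, hi⟩ := h3 j
    revert hi
    refine Fin.lastCases ?_ (fun i => ?_) i
    · intro hi
      refine ⟨i₀, fun x hx => ?_⟩
      have := hi hx
      rw [hβl] at this
      exact absurd x.2 this
    · intro hi
      refine ⟨i, fun x hx => ?_⟩
      have := hi hx
      rw [hβc] at this
      rw [← hUα i]
      exact this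
  · intro x
    have h5 : (({j : Fin m | (show XS from x.1) ∈ γ j}.ncard : ℕ) : ℤ) ≤ 1 + 1 := by
      exact_mod_cast h4 x.1
    exact h5

theorem covDim_empty {Y : Type} [TopologicalSpace Y] (h : IsEmpty Y) : CovDimLE Y (-1) := by
  intro k α _ _
  exact ⟨0, fun i => i.elim0, fun i => i.elim0, Subsingleton.elim _ _, fun i => i.elim0,
    fun y => (h.false y).elim⟩

end Pool.Agent.Lib.MP_6153ad_an.Own
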