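import Pool.Agent.Lib.MP_6153ad_an.Own

/-!
# The rescaled flow has no injective morphism to the band-limited functions
-/

set_option autoImplicit false

open Set Topology Filter MeasureTheory
open scoped FourierTransform Real

namespace Pool.Agent.Lib.MP_6153ad_an.Own

/-- A continuous `T`-periodic function with spectrum in `[-a,a]` and `a T < 2` satisfies
`f(t) + f(t + T/2) = const`. -/
theorem half_period_gen {a T : ℝ} (hT : 0 < T) (hT1 : a * T < 2) (f : C(ℝ, ℝ))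
    (hf : ∀ t, f (t + T) = f t)
    (hs : ∀ φ : SchwartzMap ℝ ℂ, HasCompactSupport (⇑φ) →
      Disjoint (tsupport (⇑φ)) (Icc (-a) a) →
      ∫ t, ((f t : ℝ) : ℂ) * 𝓕 (⇑φ : ℝ → ℂ) t = 0) :
    ∃ c : ℝ, ∀ t, f t + f (t + T / 2) = c := by
  have : Fact (0 < T) := ⟨hT⟩
  have hper : Function.Periodic (fun t => ((f t : ℝ) : ℂ)) T := by
    intro t; simp only; rw [hf]
  let F : C(AddCircle T, ℂ) := ⟨hper.lift, by
    apply continuous_coinduced_dom.2
    exact Complex.continuous_ofReal.comp f.continuous⟩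
  have hF : ∀ t : ℝ, F (t : AddCircle T) = ((f t : ℝ) : ℂ) := fun t => rfl
  have hcoeff : ∀ j : ℤ, 2 ≤ |j| → fourierCoeff F j = 0 := by
    intro j hj
    have hjT : a < |(j : ℝ) / T| := by
      rw [abs_div, abs_of_pos hT, lt_div_iff₀ hT]
      have : (2 : ℝ) ≤ |(j : ℝ)| := by exact_mod_cast hj
      linarith
    set ρ : ℝ := min (1 / (2 * T)) ((|(j : ℝ) / T| - a) / 2) with hρ
    have hρ0 : 0 < ρ := lt_min (by positivity) (by linarith)
    obtain ⟨φ, hφc, hφs, hφ1⟩ := exists_bump ((j : ℝ) / T) hρ0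
    rw [coeff_eq φ j _ hφ1 F]
    · simp_rw [hF]
      apply hs φ hφc
      rw [Set.disjoint_left]
      intro x hx hx2
      have h1 := hφs hx
      rw [Metric.mem_closedBall, Real.dist_eq] at h1
      have h2 : |x| ≤ a := abs_le.2 hx2
      have h3 : |(j : ℝ) / T| ≤ |x| + |x - (j : ℝ) / T| := by
        have := abs_sub_abs_le_abs_sub ((j : ℝ) / T) x
        rw [abs_sub_comm] at this
        linarith
      have h4 : ρ ≤ (|(j : ℝ) / T| - a) / 2 := min_le_right _ _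
      linarith
    · intro m hm
      by_contra hne
      have h1 : (m : ℝ) / T ∈ tsupport (⇑φ) := subset_tsupport _ hne
      have h2 := hφs h1
      rw [Metric.mem_closedBall, Real.dist_eq, ← sub_div, abs_div, abs_of_pos hT] at h2
      have h3 : (1 : ℝ) ≤ |(m : ℝ) - j| := by
        have : (1 : ℤ) ≤ |m - j| := Int.one_le_abs (sub_ne_zero.2 hm)
        exact_mod_cast this
      have h4 : ρ ≤ 1 / (2 * T) := min_le_left _ _
      have h5 : 1 / T ≤ |(m : ℝ) - j| / T := div_le_div_of_nonneg_right h3 hT.le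
      have h6 : 1 / (2 * T) = 1 / T / 2 := by field_simp
      have h7 : 0 < 1 / T := by positivity
      linarith
  set hh : AddCircle T := ((T / 2 : ℝ) : AddCircle T) with hhh
  let F' : C(AddCircle T, ℂ) := F.comp ⟨fun x => x + hh, by fun_prop⟩
  have hF' : ∀ x, F' x = F (x + hh) := fun x => rfl
  have hshift : ∀ j : ℤ, fourierCoeff F' j = fourier j hh * fourierCoeff F j := by
    intro j
    simp only [fourierCoeff, smul_eq_mul]
    rw [← integral_const_mul]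
    rw [← integral_add_right_eq_self (μ := AddCircle.haarAddCircle)
      (fun x : AddCircle T => fourier j hh * (fourier (-j) x * F x)) hh]
    congr 1
    ext x
    rw [fourier_map_add (-j) x hh, hF']
    have h1 : (fourier j hh : ℂ) * fourier (-j) hh = 1 := by
      rw [← fourier_add, add_neg_cancel, fourier_zero]
    linear_combination (-(fourier (-j) x * F (x + hh))) * h1
  have hfourier_one : ∀ j : ℤ, |j| = 1 → (fourier j hh : ℂ) = -1 := by
    intro j hj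
    rw [hhh, fourier_coe_apply]
    have hT0 : (T : ℂ) ≠ 0 := by exact_mod_cast hT.ne'
    rcases (abs_eq (by norm_num : (0 : ℤ) ≤ 1)).1 hj with rfl | rfl
    · have : 2 * (π : ℂ) * Complex.I * ((1 : ℤ) : ℂ) * ((T / 2 : ℝ) : ℂ) / T = π * Complex.I := by
        push_cast; field_simp
      rw [this, Complex.exp_pi_mul_I]
    · have : 2 * (π : ℂ) * Complex.I * ((-1 : ℤ) : ℂ) * ((T / 2 : ℝ) : ℂ) / T =
          -(π * Complex.I) := by
        push_cast; field_simp
      rw [this, Complex.exp_neg, Complex.exp_pi_mul_I]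
      norm_num
  have hGcoeff : ∀ j : ℤ, j ≠ 0 → fourierCoeff (F + F') j = 0 := by
    intro j hj
    have h0 : fourierCoeff (F + F') j = fourierCoeff F j + fourierCoeff F' j := by
      have := (L2 T j).map_add F F'
      exact this
    rw [h0, hshift]
    rcases lt_or_ge |j| 2 with h | h
    · have h1 : |j| = 1 := by
        have := abs_pos.2 hj
        omega
      rw [hfourier_one j h1]; ring
    · rw [hcoeff j h]; ring
  have hsum : Summable (fourierCoeff (F + F')) := by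
    apply summable_of_ne_finset_zero (s := {0})
    intro j hj
    exact hGcoeff j (by simpa using hj)
  have hhas := hasSum_fourier_series_of_summable hsum
  have hconst : F + F' = fourierCoeff (F + F') 0 • fourier 0 := by
    apply hhas.unique
    apply hasSum_single 0
    intro j hj
    rw [hGcoeff j hj, zero_smul]
  refine ⟨(fourierCoeff (F + F') 0).re, fun t => ?_⟩
  have h1 := congrArg (fun H : C(AddCircle T, ℂ) => H (t : AddCircle T)) hconst
  simp only [ContinuousMap.add_apply, ContinuousMap.smul_apply, fourier_zero, smul_eq_mul,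
    mul_one] at h1
  rw [hF', hhh, ← AddCircle.coe_add, hF, hF] at h1
  rw [← h1, ← Complex.ofReal_add, Complex.ofReal_re]

/-- The value at `0` is controlled by the metric. -/
theorem abs_sub_le_bdist {f g : ℝ → ℝ} (hf : ∀ t, |f t| ≤ 1) (hg : ∀ t, |g t| ≤ 1) :
    |f 0 - g 0| ≤ 2 * bdist f g := by
  have hb : ∀ t, |f t - g t| ≤ 2 := fun t => by
    have := abs_sub (f t) (g t)
    linarith [hf t, hg t]
  have hbdd : ∀ n : ℕ, BddAbove (range fun t : Icc (-((n : ℝ) + 1)) ((n : ℝ) + 1) =>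
      |f t - g t|) := fun n => ⟨2, by rintro _ ⟨t, rfl⟩; exact hb t⟩
  have hnn : ∀ n : ℕ, 0 ≤ ⨆ t : Icc (-((n : ℝ) + 1)) ((n : ℝ) + 1), |f t - g t| := fun n =>
    Real.iSup_nonneg fun t => abs_nonneg _
  have hle : ∀ n : ℕ, (⨆ t : Icc (-((n : ℝ) + 1)) ((n : ℝ) + 1), |f t - g t|) ≤ 2 := fun n => by
    have : Nonempty (Icc (-((n : ℝ) + 1)) ((n : ℝ) + 1)) :=
      ⟨⟨0, by constructor <;> have : (0 : ℝ) ≤ n := Nat.cast_nonneg n <;> linarith⟩⟩
    exact ciSup_le fun t => hb t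
  have hgeo : Summable fun n : ℕ => (1 / 2 : ℝ) ^ (n + 1) * 2 := by
    have h := (summable_geometric_of_lt_one (by norm_num : (0 : ℝ) ≤ 1 / 2)
      (by norm_num : (1 / 2 : ℝ) < 1))
    have h2 := h.mul_left (1 : ℝ)
    refine h2.congr fun n => ?_
    rw [pow_succ]; ring
  have hsum : Summable fun n : ℕ => (1 / 2 : ℝ) ^ (n + 1) *
      ⨆ t : Icc (-((n : ℝ) + 1)) ((n : ℝ) + 1), |f t - g t| := by
    refine Summable.of_nonneg_of_le (fun n => mul_nonneg (by positivity) (hnn n)) (fun n => ?_) hgeo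
    exact mul_le_mul_of_nonneg_left (hle n) (by positivity)
  have h0 : (1 / 2 : ℝ) ^ (0 + 1) *
      (⨆ t : Icc (-(((0 : ℕ) : ℝ) + 1)) (((0 : ℕ) : ℝ) + 1), |f t - g t|) ≤ bdist f g :=
    hsum.le_tsum 0 fun n _ => mul_nonneg (by positivity) (hnn n)
  have h1 : |f 0 - g 0| ≤
      ⨆ t : Icc (-(((0 : ℕ) : ℝ) + 1)) (((0 : ℕ) : ℝ) + 1), |f t - g t| :=
    le_ciSup (hbdd 0) ⟨0, by norm_num⟩
  norm_num at h0 h1 ⊢
  linarith

/-- Joint limits. -/
theorem lim_aux (g : XS → ℝ) (hgc : Continuous g) (u : ℝ) (v : ℕ → ℝ)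
    (hv : Tendsto v atTop (𝓝 u)) :
    Tendsto (fun k => g ((v k : ℝ) +ᵥ pt k)) atTop (𝓝 (g (u +ᵥ pt0))) := by
  have h0 : Continuous fun q : ℝ × XS => (q.1 +ᵥ q.2 : XS) := continuous_vadd
  have h1 : Tendsto (fun q : ℝ × XS => (q.1 +ᵥ q.2 : XS)) (𝓝 (u, pt0)) (𝓝 (u +ᵥ pt0)) :=
    h0.tendsto (u, pt0)
  have h2 : Tendsto (fun k => ((v k, pt k) : ℝ × XS)) atTop (𝓝 (u, pt0)) :=
    hv.prodMk_nhds tendsto_pt
  have h3 := h1.comp h2
  have h4 := (hgc.tendsto (u +ᵥ pt0)).comp h3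
  exact h4

/-- Collapse, in terms of the function `g x = Φ x 0`. -/
theorem collapse {a : ℝ} (ha : 0 < a) (g : XS → ℝ) (hgc : Continuous g)
    (hB : ∀ x : XS, (fun t : ℝ => g ((a / 2 * t : ℝ) +ᵥ x)) ∈ bandLimited a) (u : ℝ) :
    g (u +ᵥ pt0) = g ((0 : ℝ) +ᵥ pt0) := by
  have hs : 0 < a / 2 := by positivity
  have hlim : ∀ (u : ℝ) (v : ℕ → ℝ), Tendsto v atTop (𝓝 u) →
      Tendsto (fun k => g ((v k : ℝ) +ᵥ pt k)) atTop (𝓝 (g (u +ᵥ pt0))) := by
    intro u v hv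
    exact lim_aux g hgc u v hv
  have hconst : ∀ k : ℕ, ∃ c : ℝ, ∀ t : ℝ, g ((a / 2 * t : ℝ) +ᵥ pt k) +
      g ((a / 2 * (t + per k / (a / 2) / 2) : ℝ) +ᵥ pt k) = c := by
    intro k
    have hT : 0 < per k / (a / 2) := div_pos (per_pos k) hs
    have hT1 : a * (per k / (a / 2)) < 2 := by
      have h1 := per_lt_one k
      have h2 : a * (per k / (a / 2)) = 2 * per k := by field_simp
      rw [h2]; linarith
    obtain ⟨hfc, -, hfs⟩ := hB (pt k)
    have hper : ∀ t : ℝ, g ((a / 2 * (t + per k / (a / 2)) : ℝ) +ᵥ pt k) =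
        g ((a / 2 * t : ℝ) +ᵥ pt k) := by
      intro t
      have h2 : a / 2 * (t + per k / (a / 2)) = a / 2 * t + per k := by field_simp
      rw [h2, add_vadd, per_vadd]
    exact half_period_gen hT hT1 ⟨fun t : ℝ => g ((a / 2 * t : ℝ) +ᵥ pt k), hfc⟩ hper hfs
  have hsum : ∀ t : ℝ, g ((a / 2 * t : ℝ) +ᵥ pt0) + g ((a / 2 * t + 1 / 2 : ℝ) +ᵥ pt0) =
      g ((a / 2 * 0 : ℝ) +ᵥ pt0) + g ((a / 2 * 0 + 1 / 2 : ℝ) +ᵥ pt0) := by
    intro t
    have e1 : ∀ t : ℝ, Tendsto (fun k => g ((a / 2 * t : ℝ) +ᵥ pt k) +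
        g ((a / 2 * (t + per k / (a / 2) / 2) : ℝ) +ᵥ pt k)) atTop
        (𝓝 (g ((a / 2 * t : ℝ) +ᵥ pt0) + g ((a / 2 * t + 1 / 2 : ℝ) +ᵥ pt0))) := by
      intro t
      have h1 := hlim (a / 2 * t) (fun _ => a / 2 * t) tendsto_const_nhds
      have h2 := hlim (a / 2 * t + 1 / 2) (fun k => a / 2 * (t + per k / (a / 2) / 2)) (by
        have h3 : (fun k => a / 2 * (t + per k / (a / 2) / 2)) = fun k => a / 2 * t + per k / 2 := by
          funext k; field_simp
        rw [h3]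
        exact tendsto_const_nhds.add (tendsto_per.div_const 2))
      exact h1.add h2
    refine tendsto_nhds_unique (e1 t) ((e1 0).congr fun k => ?_)
    obtain ⟨c, hc'⟩ := hconst k
    rw [hc' t, hc' 0]
  have hper : ∀ u : ℝ, ((u + 1 / 2 : ℝ) +ᵥ pt0 : XS) = u +ᵥ pt0 := by
    intro u
    rw [add_vadd, half_vadd_pt0]
  have h1 := hsum (2 * u / a)
  have h2 : a / 2 * (2 * u / a) = u := by field_simp
  rw [hper, hper, h2, mul_zero] at h1
  linarith

/-- The values of a morphism. -/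
theorem morphism_val {a : ℝ} {Φ : XA (a / 2) → ℝ → ℝ} (hΦ : IsMorphism (XA (a / 2)) a Φ)
    (x : XS) (t : ℝ) : Φ x t = Φ ((a / 2 * t : ℝ) +ᵥ x : XS) 0 := by
  have h := hΦ.2.2 t x 0
  rw [zero_add] at h
  exact h.symm

/-- A morphism collapses the exceptional orbit. -/
theorem morphism_const {a : ℝ} (ha : 0 < a) {Φ : XA (a / 2) → ℝ → ℝ}
    (hΦ : IsMorphism (XA (a / 2)) a Φ) (t : ℝ) : Φ pt0 t = Φ pt0 0 := by
  have hgc : Continuous (fun x : XS => Φ x 0) := by
    rw [Metric.continuous_iff]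
    intro x ε hε
    obtain ⟨δ, hδ, h⟩ := hΦ.2.1 x (ε / 2) (by positivity)
    refine ⟨δ, hδ, fun y hy => ?_⟩
    have h1 := h y hy
    have h2 := abs_sub_le_bdist (hΦ.1 y).2.1 (hΦ.1 x).2.1
    rw [Real.dist_eq]
    linarith
  have h := collapse ha (fun x : XS => Φ x 0) hgc (fun x => by
    have h1 := hΦ.1 x
    have h2 : Φ x = fun t : ℝ => Φ ((a / 2 * t : ℝ) +ᵥ x : XS) 0 := by
      funext t
      exact morphism_val hΦ x t
    rw [h2] at h1
    exact h1) (a / 2 * t)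
  have h3 := morphism_val hΦ pt0 t
  have h4 := morphism_val hΦ pt0 0
  rw [mul_zero] at h4
  rw [h3, h4]
  exact h

/-- The exceptional point is not fixed by the flow. -/
theorem not_fixed {a : ℝ} (ha : 0 < a) :
    ((1 / (2 * a) : ℝ) +ᵥ (show XA (a / 2) from pt0)) ≠ pt0 := by
  rw [vadd_XA]
  have h : a / 2 * (1 / (2 * a)) = 1 / 4 := by field_simp; norm_num
  rw [h]
  exact quarter_vadd_pt0

theorem main (a : ℝ) (ha : 0 < a) :
    CovDimLE (XA (a / 2)) 1 ∧
    (∀ ε > 0, ∀ T ≥ 0, WidimLE (XA (a / 2)) ε T 4) ∧ HasMeanDim (XA (a / 2)) 0 ∧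
    (∀ r > 0, ∃ n : ℤ, CovDimLE (periodicSet (XA (a / 2)) r) n ∧ (n : ℝ) < ⌊a * r⌋ + 1 / 2) ∧
    ∃ x₀ : XA (a / 2), (∃ t : ℝ, t +ᵥ x₀ ≠ x₀) ∧ ∀ Φ : XA (a / 2) → ℝ → ℝ,
      IsMorphism (XA (a / 2)) a Φ → (∀ t, Φ x₀ t = Φ x₀ 0) ∧ ¬ Function.Injective Φ := by
  have hs : 0 < a / 2 := by positivity
  refine ⟨covDim_XA _, fun ε hε T hT => widimLE_XA _ hε hT, meanDim_XA _, ?_, pt0,
    ⟨_, not_fixed ha⟩, ?_⟩
  · intro r hr
    rcases (periodicSet (XA (a / 2)) r).eq_empty_or_nonempty with he | hne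
    · refine ⟨-1, covDim_empty (isEmpty_coe_sort.2 he), ?_⟩
      have h1 : (0 : ℤ) ≤ ⌊a * r⌋ := Int.floor_nonneg.2 (by positivity)
      have h2 : (0 : ℝ) ≤ ⌊a * r⌋ := by exact_mod_cast h1
      push_cast; linarith
    · refine ⟨1, covDim_periodic _ hne, ?_⟩
      obtain ⟨P, hP⟩ := hne
      have h0 := period_XA (a / 2) hs hr hP
      have h1 : (1 : ℤ) ≤ ⌊a * r⌋ := by
        rw [Int.le_floor]; push_cast; linarith
      have h2 : (1 : ℝ) ≤ ⌊a * r⌋ := by exact_mod_cast h1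
      push_cast; linarith
  · intro Φ hΦ
    refine ⟨morphism_const ha hΦ, fun hinj => not_fixed ha (hinj ?_)⟩
    funext t
    rw [hΦ.2.2, morphism_const ha hΦ, morphism_const ha hΦ t]

end Pool.Agent.Lib.MP_6153ad_an.Own
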