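import Mathlib

/-!
# The flow
-/

set_option autoImplicit false

open Set Topology Filter
open scoped Real

namespace Pool.Agent.Lib.MP_6153ad_an

/-- Radii: `0` and `1 / (k + 1)`. -/
noncomputable def Sset : Set ℝ := insert 0 (range fun k : ℕ => 1 / ((k : ℝ) + 1))

/-- The space: pairs `(u, v)` with `|v| = 1`, `|u|` in `Sset` and `u ^ 2 = |u| ^ 2 v`. -/
def XS : Type := {P : ℂ × ℂ // ‖P.2‖ = 1 ∧ ‖P.1‖ ∈ Sset ∧ P.1 ^ 2 = (‖P.1‖ : ℂ) ^ 2 * P.2}

noncomputable instance : MetricSpace XS := inferInstanceAs (MetricSpace {_P : ℂ × ℂ // _})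

theorem isCompact_Sset : IsCompact Sset := by
  have h : Tendsto (fun k : ℕ => 1 / ((k : ℝ) + 1)) atTop (𝓝 0) :=
    tendsto_one_div_add_atTop_nhds_zero_nat
  exact h.isCompact_insert_range

theorem Sset_nonneg {s : ℝ} (hs : s ∈ Sset) : 0 ≤ s := by
  rcases hs with rfl | ⟨k, rfl⟩
  · exact le_rfl
  · simp only; positivity

theorem Sset_le_one {s : ℝ} (hs : s ∈ Sset) : s ≤ 1 := by
  rcases hs with rfl | ⟨k, rfl⟩
  · exact zero_le_one
  · simp only
    rw [div_le_one (by positivity)]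
    have : (0 : ℝ) ≤ k := Nat.cast_nonneg k
    linarith

instance : CompactSpace XS := by
  apply isCompact_iff_compactSpace.1
  apply Metric.isCompact_of_isClosed_isBounded
  · apply IsClosed.inter
    · exact isClosed_eq (by fun_prop) continuous_const
    · apply IsClosed.inter
      · exact isCompact_Sset.isClosed.preimage (by fun_prop)
      · have h1 : Continuous fun P : ℂ × ℂ => ((‖P.1‖ : ℝ) : ℂ) :=
          Complex.continuous_ofReal.comp (continuous_norm.comp continuous_fst)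
        exact isClosed_eq (by fun_prop) ((h1.pow 2).mul continuous_snd)
  · apply Metric.isBounded_closedBall.subset (t := Metric.closedBall (0 : ℂ × ℂ) 1)
    rintro P ⟨h1, h2, -⟩
    rw [mem_closedBall_zero_iff, Prod.norm_def, max_le_iff]
    exact ⟨Sset_le_one h2, h1.le⟩

/-- Exponential. -/
noncomputable def E (s : ℝ) : ℂ := Complex.exp (((2 * π * s : ℝ) : ℂ) * Complex.I)

theorem norm_E (s : ℝ) : ‖E s‖ = 1 := Complex.norm_exp_ofReal_mul_I _

theorem E_add (s t : ℝ) : E (s + t) = E s * E t := by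
  rw [E, E, E, ← Complex.exp_add]
  congr 1; push_cast; ring

theorem E_zero : E 0 = 1 := by simp [E]

theorem E_one : E 1 = 1 := by
  rw [E, mul_one]
  have : (((2 * π : ℝ)) : ℂ) * Complex.I = 2 * π * Complex.I := by push_cast; ring
  rw [this, Complex.exp_two_pi_mul_I]

theorem E_half : E (1 / 2) = -1 := by
  rw [E]
  have : ((2 * π * (1 / 2) : ℝ) : ℂ) * Complex.I = π * Complex.I := by push_cast; ring
  rw [this, Complex.exp_pi_mul_I]

theorem E_eq_one {s : ℝ} (h : E s = 1) : ∃ n : ℤ, s = n := by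
  rw [E, Complex.exp_eq_one_iff] at h
  obtain ⟨n, hn⟩ := h
  refine ⟨n, ?_⟩
  have hpi : (π : ℂ) ≠ 0 := by exact_mod_cast Real.pi_ne_zero
  have h1 : (s : ℂ) = n := by
    have h2 : (2 * (π : ℂ) * Complex.I) * s = (2 * (π : ℂ) * Complex.I) * n := by
      push_cast at hn
      linear_combination hn
    exact mul_left_cancel₀ (by simp [hpi]) h2
  exact_mod_cast h1

theorem continuous_E : Continuous E := by
  unfold E
  fun_prop

theorem E_two_mul (s : ℝ) : E (2 * s) = E s ^ 2 := by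
  rw [two_mul, E_add, sq]

/-- The action. -/
noncomputable def act (t : ℝ) (P : XS) : XS :=
  ⟨(E ((1 + ‖P.1.1‖) * t) * P.1.1, E (2 * ((1 + ‖P.1.1‖) * t)) * P.1.2), by
    obtain ⟨h1, h2, h3⟩ := P.2
    have hn : ‖E ((1 + ‖P.1.1‖) * t) * P.1.1‖ = ‖P.1.1‖ := by rw [norm_mul, norm_E, one_mul]
    refine ⟨?_, ?_, ?_⟩
    · simp only; rw [norm_mul, norm_E, one_mul, h1]
    · simp only; rw [hn]; exact h2
    · simp only; rw [hn, mul_pow, h3, E_two_mul]; ring⟩

theorem norm_act (t : ℝ) (P : XS) : ‖(act t P).1.1‖ = ‖P.1.1‖ := by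
  change ‖E ((1 + ‖P.1.1‖) * t) * P.1.1‖ = ‖P.1.1‖
  rw [norm_mul, norm_E, one_mul]

noncomputable instance : AddAction ℝ XS where
  vadd t P := act t P
  zero_vadd P := by
    apply Subtype.ext
    apply Prod.ext
    · change E ((1 + ‖P.1.1‖) * 0) * P.1.1 = P.1.1
      rw [mul_zero, E_zero, one_mul]
    · change E (2 * ((1 + ‖P.1.1‖) * 0)) * P.1.2 = P.1.2
      rw [mul_zero, mul_zero, E_zero, one_mul]
  add_vadd s t P := by
    apply Subtype.ext
    apply Prod.ext
    · change E ((1 + ‖P.1.1‖) * (s + t)) * P.1.1 =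
        E ((1 + ‖(act t P).1.1‖) * s) * (E ((1 + ‖P.1.1‖) * t) * P.1.1)
      rw [norm_act, mul_add, E_add]; ring
    · change E (2 * ((1 + ‖P.1.1‖) * (s + t))) * P.1.2 =
        E (2 * ((1 + ‖(act t P).1.1‖) * s)) * (E (2 * ((1 + ‖P.1.1‖) * t)) * P.1.2)
      rw [norm_act, mul_add, mul_add, E_add]; ring

theorem vadd_fst (t : ℝ) (P : XS) : (t +ᵥ P).1.1 = E ((1 + ‖P.1.1‖) * t) * P.1.1 := rfl

theorem vadd_snd (t : ℝ) (P : XS) : (t +ᵥ P).1.2 = E (2 * ((1 + ‖P.1.1‖) * t)) * P.1.2 := rfl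

instance : ContinuousVAdd ℝ XS where
  continuous_vadd := by
    have hu : Continuous fun q : ℝ × XS => q.2.1.1 :=
      continuous_fst.comp (continuous_subtype_val.comp continuous_snd)
    have hv : Continuous fun q : ℝ × XS => q.2.1.2 :=
      continuous_snd.comp (continuous_subtype_val.comp continuous_snd)
    apply Continuous.subtype_mk
    apply Continuous.prodMk
    · exact (continuous_E.comp ((continuous_const.add hu.norm).mul continuous_fst)).mul hu
    · exact (continuous_E.comp (continuous_const.mul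
        ((continuous_const.add hu.norm).mul continuous_fst))).mul hv

/-- Periodic points have period at least `1/2`. -/
theorem period_ge {r : ℝ} (hr : 0 < r) {P : XS} (h : r +ᵥ P = P) : 1 / 2 ≤ r := by
  obtain ⟨h1, h2, h3⟩ := P.2
  have hs0 := Sset_nonneg h2
  have hs1 := Sset_le_one h2
  have hv0 : P.1.2 ≠ 0 := by rw [← norm_pos_iff, h1]; exact one_pos
  by_cases hu : P.1.1 = 0
  · have e1 : E (2 * ((1 + ‖P.1.1‖) * r)) * P.1.2 = 1 * P.1.2 := by
      rw [one_mul, ← vadd_snd, h]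
    have e2 := mul_right_cancel₀ hv0 e1
    rw [hu, norm_zero, add_zero, one_mul] at e2
    obtain ⟨n, hn⟩ := E_eq_one e2
    have h0 : (0 : ℝ) < n := by rw [← hn]; linarith
    have h4 : (1 : ℝ) ≤ n := by exact_mod_cast (by exact_mod_cast h0 : (0 : ℤ) < n)
    linarith
  · have e1 : E ((1 + ‖P.1.1‖) * r) * P.1.1 = 1 * P.1.1 := by
      rw [one_mul, ← vadd_fst, h]
    have e2 := mul_right_cancel₀ hu e1
    obtain ⟨n, hn⟩ := E_eq_one e2
    have h0 : (0 : ℝ) < n := by rw [← hn]; positivity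
    have h4 : (1 : ℝ) ≤ n := by exact_mod_cast (by exact_mod_cast h0 : (0 : ℤ) < n)
    nlinarith

/-- The points approximating the exceptional orbit. -/
noncomputable def pt (k : ℕ) : XS :=
  ⟨(((1 / ((k : ℝ) + 1) : ℝ) : ℂ), 1), by
    have hpos : (0 : ℝ) ≤ 1 / ((k : ℝ) + 1) := by positivity
    have hn : ‖((1 / ((k : ℝ) + 1) : ℝ) : ℂ)‖ = 1 / ((k : ℝ) + 1) := by
      rw [Complex.norm_real, Real.norm_of_nonneg hpos]
    refine ⟨by simp, ?_, ?_⟩
    · simp only; rw [hn]; exact Or.inr ⟨k, rfl⟩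
    · simp only; rw [hn, mul_one]⟩

theorem norm_pt (k : ℕ) : ‖(pt k).1.1‖ = 1 / ((k : ℝ) + 1) := by
  have hpos : (0 : ℝ) ≤ 1 / ((k : ℝ) + 1) := by positivity
  change ‖((1 / ((k : ℝ) + 1) : ℝ) : ℂ)‖ = 1 / ((k : ℝ) + 1)
  rw [Complex.norm_real, Real.norm_of_nonneg hpos]

/-- The point on the exceptional orbit. -/
noncomputable def pt0 : XS := ⟨(0, 1), by
  refine ⟨by simp, ?_, by simp⟩
  simp only [norm_zero]
  exact Or.inl rfl⟩

theorem tendsto_pt : Tendsto pt atTop (𝓝 pt0) := by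
  apply tendsto_subtype_rng.2
  apply Tendsto.prodMk_nhds
  · change Tendsto (fun k : ℕ => ((1 / ((k : ℝ) + 1) : ℝ) : ℂ)) atTop (𝓝 0)
    have h := tendsto_one_div_add_atTop_nhds_zero_nat (𝕜 := ℝ)
    have := (Complex.continuous_ofReal.tendsto 0).comp h
    rw [Complex.ofReal_zero] at this
    exact this
  · exact tendsto_const_nhds

/-- The period of `pt k`. -/
noncomputable def per (k : ℕ) : ℝ := 1 / (1 + 1 / ((k : ℝ) + 1))

theorem per_pos (k : ℕ) : 0 < per k := by unfold per; positivity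

theorem per_lt_one (k : ℕ) : per k < 1 := by
  unfold per
  rw [div_lt_one (by positivity)]
  have : (0 : ℝ) < 1 / ((k : ℝ) + 1) := by positivity
  linarith

theorem per_vadd (k : ℕ) : per k +ᵥ pt k = pt k := by
  have h : (1 + ‖(pt k).1.1‖) * per k = 1 := by
    rw [norm_pt, per]
    have : (0 : ℝ) < 1 + 1 / ((k : ℝ) + 1) := by positivity
    field_simp
  apply Subtype.ext
  apply Prod.ext
  · rw [vadd_fst, h, E_one, one_mul]
  · rw [vadd_snd, h, mul_one]
    have : E 2 = 1 := by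
      have := E_two_mul 1
      rw [mul_one, E_one, one_pow] at this
      exact this
    rw [this, one_mul]

theorem tendsto_per : Tendsto per atTop (𝓝 1) := by
  have h := tendsto_one_div_add_atTop_nhds_zero_nat (𝕜 := ℝ)
  have h2 : Tendsto (fun k : ℕ => 1 / (1 + 1 / ((k : ℝ) + 1))) atTop (𝓝 (1 / (1 + 0))) := by
    apply Tendsto.div tendsto_const_nhds _ (by norm_num)
    exact tendsto_const_nhds.add h
  have h3 : (1 : ℝ) / (1 + 0) = 1 := by norm_num
  rw [h3] at h2
  exact h2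

theorem half_vadd_pt0 : (1 / 2 : ℝ) +ᵥ pt0 = pt0 := by
  apply Subtype.ext
  apply Prod.ext
  · rw [vadd_fst]
    change _ * (0 : ℂ) = 0
    rw [mul_zero]
  · rw [vadd_snd]
    have h0 : ‖pt0.1.1‖ = 0 := norm_zero
    rw [h0, add_zero, one_mul]
    have : (2 * (1 / 2) : ℝ) = 1 := by norm_num
    rw [this, E_one, one_mul]

theorem quarter_vadd_pt0 : (1 / 4 : ℝ) +ᵥ pt0 ≠ pt0 := by
  intro h
  have h1 : ((1 / 4 : ℝ) +ᵥ pt0).1.2 = pt0.1.2 := by rw [h]
  rw [vadd_snd] at h1
  have h0 : ‖pt0.1.1‖ = 0 := norm_zero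
  rw [h0, add_zero, one_mul] at h1
  have : (2 * (1 / 4) : ℝ) = 1 / 2 := by norm_num
  rw [this, E_half] at h1
  change (-1 : ℂ) * 1 = 1 at h1
  norm_num at h1

end Pool.Agent.Lib.MP_6153ad_an
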